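import Pool.Agent.Lib.helper10.Fb5

namespace Pool.Agent.Results.MP_9e35a6_lc.Intermediate

open Pool.Agent.Cx Pool.Agent.Fb Polynomial List

def V0 (z : List Bool × List Bool) : Prop :=
  ¬ ∃ c ∈ (decode z.1 : F3), ¬ ((c.1.1 < z.1.length ∧ c.2.1.1 < z.1.length ∧ c.2.2.1 < z.1.length) ∧
    (z.2.getD c.1.1 false = c.1.2 ∨ z.2.getD c.2.1.1 false = c.2.1.2 ∨ z.2.getD c.2.2.1 false = c.2.2.2))

lemma ss_iff {x : List Bool} : SS V0 x ↔ (¬ ∃ c ∈ (decode x : F3),
    ¬ (c.1.1 < x.length ∧ c.2.1.1 < x.length ∧ c.2.2.1 < x.length)) ∧ Sat3 (decode x) := by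
  simp only [SS, V0, not_exists, not_and (a := _ ∈ _), not_not]
  refine ⟨fun ⟨w, _, h⟩ => ⟨fun c hc => (h c hc).1, (w.getD · false), fun c hc => (h c hc).2⟩,
    fun ⟨h, τ, g⟩ => ⟨(range x.length).map τ, by simp, fun c hc => ⟨h c hc, ?_⟩⟩⟩
  simpa [h c hc] using g c hc

lemma hard : Hard (SS V0) := hard_sat3.red (r := enc) (by fun_prop) fun φ => by
  rw [ss_iff, decode_enc, and_iff_right]
  rintro ⟨⟨⟨a, a'⟩, ⟨b, b'⟩, c, c'⟩, h, g⟩
  have := size_lt_of_mem h
  simp only [size_pair, size_nat] at this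
  exact g (by unfold size at this; simp only; omega)

/-- If P differs from NP, some finitely bounded structure has an NP-intermediate CSP. -/
theorem result (h : ¬ ∀ L, InNP L → InP L) : ∃ (m : ℕ) (W : Type) (A : Str m W), FinBounded A ∧
    InNP (CSP A) ∧ ¬ InP (CSP A) ∧ ¬ NPHard (CSP A) := by
  classical
  have p0 : PP V0 := by unfold V0; fun_prop
  obtain ⟨fl, pf, h1, h2⟩ := ladner p0 fun ⟨f, hf, e⟩ => h (hard.p_eq_np (inP_Lang hf e))
  obtain ⟨R, D, A, nK, r0, r1, c0, cT, cH, cA, p, σ, S⟩ := exists_sys pf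
  obtain ⟨K, hD, hK⟩ : ∃ K, D ≤ K ∧ ∀ ρ ∈ R, (∀ x ∈ ρ.1 ++ ρ.2.1, x.2.1 ≤ K) ∧ ∀ x ∈ ρ.2.2, x.2 ≤ K := by
    refine ⟨D + size R, by omega, ?_⟩
    rintro ⟨a, b, c⟩ hρ
    have := size_lt_of_mem hρ
    have := size_append a b
    refine ⟨fun ⟨x, y, z⟩ hx => ?_, fun ⟨x, y⟩ hx => ?_⟩ <;> have := size_lt_of_mem hx <;>
      simp only [size_pair, size_nat] at * <;> omega
  obtain ⟨N, hN, hT⟩ := exists_bd (ch :: (TH R D A nK r0 r1 c0 cT cH cA K ++ TB))
  obtain ⟨W, B, hB, e⟩ := exists_fb hT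
  have l := fun L m φ => line_iff (L := L) (m := m) (φ := φ) S hD hK hN
  simp only [← e] at l
  have e' := fun z => (e z).trans (forall₂_congr fun s hs => ext_iff S hD hK hN hT hs)
  generalize TH R D A nK r0 r1 c0 cT cH cA K = H at *
  generalize ch :: (H ++ TB) = T at *
  obtain ⟨f, pf', rfl⟩ := pf.bool
  obtain ⟨v, pv, ev⟩ := (pp_ver T H N (y := fun z : Inst × ℕ × List Bool => z.1) (t := fun z => z.2.1)
    (w := fun z => z.2.2) (by fun_prop) (by fun_prop) (by fun_prop)).bool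
  have ev : ∀ z s w, Ver T H N z s w ↔ v (z, s, w) = true := fun z s w => iff_of_eq (congrFun ev (z, s, w))
  simp only [ev] at e'
  refine ⟨N, W, B, hB, ?_, fun g => h1 ?_, fun g => ?_⟩
  · obtain ⟨u, pu, eu⟩ : PP fun y : Inst × List (List Bool) => ¬ ∃ s < y.1.1,
        ¬ ((y.2.getD s []).length ≤ mk y.1 s ∧ (f (mk y.1 s) = true ∨ y.2.getD s [] = []) ∧
          v (y.1, s, y.2.getD s []) = true) := by fun_prop
    refine inNP_Lang pu (X * (4 * X + 2) + 1) (fun z hz => ?_) fun z w hw => (e' z).2 fun s hs =>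
      ⟨w.getD s [], not_not.1 fun q => (eu (z, w)).2 hw ⟨s, hs, q⟩⟩
    choose! w hw using (e' z).1 hz
    have a : size z = _ := size_pair z.1 z.2
    refine ⟨(range z.1).map w, (size_list_le _ (4 * size z + 1) ?_).trans ?_, (eu _).1 ?_⟩
    · simp only [mem_map, mem_range]
      rintro _ ⟨s, hs, rfl⟩
      have b : mk z s ≤ z.1 := by
        unfold mk
        cases q : (range z.1).find? fun k => decide (∃ y ∈ layer z s k, (2, s, y, y) ∈ z.2)
        · simp
        · exact (mem_range.1 (mem_of_find?_eq_some q)).le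
      have := size_list_le (w s) 3 fun b _ => size_bool b
      have := (hw s hs).1
      simp only [size_nat] at a; omega
    · simp only [length_map, length_range, eval_add, eval_mul, eval_X, eval_one, eval_ofNat, size_nat] at *
      exact Nat.add_le_add_right (Nat.mul_le_mul_right _ (by omega)) 1
    · rintro ⟨s, hs, q⟩
      exact q (by simpa [show s < z.1 from hs] using hw s hs)
  · obtain ⟨c, pc, ec⟩ := g.pt
    obtain ⟨u, pu, eu⟩ : PP fun x : List Bool => ¬ f x.length = true ∨ (¬ ∃ c ∈ (decode x : F3),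
        ¬ (c.1.1 < x.length ∧ c.2.1.1 < x.length ∧ c.2.2.1 < x.length)) ∧
        c (enc (line ((p.eval x.length + 1) * D + K + x.length + (decode x : F3).length) x.length
          (decode x))) = true := by unfold line; fun_prop
    refine ⟨u, pu, fun x => Iff.trans ?_ (eu x)⟩
    simp only [imp_iff_not_or, ss_iff, ← ec, CSP, mem_Lang]
    refine or_congr_right' fun a => and_congr_right fun b => (l _ _ _ (not_not.1 a) le_rfl ?_).symm
    exact fun c hc => not_not.1 fun q => b ⟨c, hc, q⟩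
  · obtain ⟨r, pr, er⟩ := g {x | SS V0 x} (by
      obtain ⟨u, pu, eu⟩ := p0
      exact inNP_raw pu X fun x => by simp [SS, eu])
    have pr := pr.pt
    refine h2 (fun x => (0, 0) :: (range (decode (r x) : Inst).1).map fun s => (mk (decode (r x)) s, s + 1))
      (fun y => enc (decode (r y.1) : Inst) = r y.1 ∧ (y.2.1 = 0 ∨ v (decode (r y.1), y.2.1 - 1, y.2.2) = true))
      (PT.comp (g := fun z : Inst => (0, 0) :: (range z.1).map fun s => (mk z s, s + 1)) (by fun_prop)
        pr.decode) (by fun_prop) fun x => (er x).trans ?_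
    simp only [CSP, mem_Lang', e', Cx.Acc, mem_cons, forall_eq_or_imp, forall_mem_map, mem_range]
    by_cases q : enc (decode (r x) : Inst) = r x
    · simp [q]
    · simp [q]

end Pool.Agent.Results.MP_9e35a6_lc.Intermediate
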